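import Pool.Agent.Helper52.SG.Goals

/-! TORN -/

set_option autoImplicit false

namespace Pool.Agent.Helper20.SG.TORN

open Subgroup Pool.H83Shunkov Pool.Agent.Helper29.SH Pool.Agent.Helper52.SG

theorem fin_of_lfRad {N : Type} [Group N] {t : N} (ht : t ∈ lfRad N) : IsOfFinOrder t := by
  have h := isLocFin_lfRad (G := N) {t} (by simpa using ht)
  exact isOfFinOrder_of_mem_finite h (subset_closure (by simp))

theorem t (hFIT : S_FIT) : S_TORN := by
  intro G _ a p hSt D hD hDa
  obtain ⟨g, hg⟩ := hDa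
  have hN : IsShunkov (normalizer (D : Set G)) :=
    h_SSUB G (normalizer (D : Set G)) (normalizer (D : Set G)).subtype
      (Subgroup.subtype_injective _) hSt.sh
  have : Finite D := hD
  have hfi : ((centralizer (D : Set G)).subgroupOf (normalizer (D : Set G))).FiniteIndex := by
    rw [← Subgroup.normalizerMonoidHom_ker]
    infer_instance
  obtain ⟨h1, h2⟩ := hFIT (normalizer (D : Set G)) hN _ hfi (by
    have h3 := (hSt.conj g).tor
    refine Set.Finite.of_finite_image (f := fun x : normalizer (D : Set G) => (x : G))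
      (h3.subset ?_) Subtype.val_injective.injOn
    rintro _ ⟨x, ⟨hx1, hx2⟩, rfl⟩
    refine ⟨?_, ?_⟩
    · rw [mem_subgroupOf, mem_centralizer_iff] at hx1
      rw [mem_centralizer_singleton_iff]
      exact (hx1 _ hg).symm
    · exact MonoidHom.isOfFinOrder (normalizer (D : Set G)).subtype hx2)
  refine ⟨(lfRad (normalizer (D : Set G))).map (normalizer (D : Set G)).subtype, ?_, ?_⟩
  · have h4 : ((lfRad (normalizer (D : Set G)) : Subgroup _) : Set _).Finite :=
      h1.subset fun t ht => fin_of_lfRad ht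
    exact h4.image _
  · ext x
    constructor
    · rintro ⟨y, hy, rfl⟩
      exact ⟨y.2, MonoidHom.isOfFinOrder (normalizer (D : Set G)).subtype (fin_of_lfRad hy)⟩
    · rintro ⟨hx1, hx2⟩
      refine ⟨⟨x, hx1⟩, h2 _ ?_, rfl⟩
      rw [isOfFinOrder_iff_pow_eq_one] at hx2 ⊢
      obtain ⟨n, hn, h5⟩ := hx2
      exact ⟨n, hn, Subtype.ext (by simpa using h5)⟩

end Pool.Agent.Helper20.SG.TORN
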